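import Pool.Agent.Helper18.RD.Stmts

set_option autoImplicit false

namespace Pool.Agent.Helper95.RD

open Finset Pool.Agent.Helper18.RD

/-- a product of `K` primes has at most `K` prime factors, each of them among the given ones -/
theorem pf_card {K : ℕ} {p : Fin K → ℕ} (hp : ∀ i, (p i).Prime) :
    (∏ i, p i).primeFactors.card ≤ K := by
  have h1 : (∏ i, p i).primeFactors ⊆ univ.image p := by
    intro q hq
    have hq' := Nat.prime_of_mem_primeFactors hq
    have hd := Nat.dvd_of_mem_primeFactors hq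
    obtain ⟨i, _, hi⟩ := (hq'.prime.dvd_finsetProd_iff _).1 hd
    exact mem_image.2 ⟨i, mem_univ _, ((Nat.prime_dvd_prime_iff_eq hq' (hp i)).1 hi).symm⟩
  calc (∏ i, p i).primeFactors.card ≤ (univ.image p).card := card_le_card h1
    _ ≤ (univ : Finset (Fin K)).card := card_image_le
    _ = K := by simp

theorem pf_mem {K : ℕ} {p : Fin K → ℕ} (hp : ∀ i, (p i).Prime) (i : Fin K) :
    p i ∈ (∏ i, p i).primeFactors :=
  Nat.mem_primeFactors.2 ⟨hp i, dvd_prod_of_mem _ (mem_univ i),
    prod_ne_zero_iff.2 fun j _ => (hp j).ne_zero⟩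

theorem prod_mem {K P : ℕ} {p : Fin K → ℕ} (hp : ∀ i, (p i).Prime) (h2 : ∀ i, p i ≠ 2)
    (hP : ∀ i, p i ≤ P) : ∏ i, p i ∈ (Icc 1 (P ^ K)).filter (fun r => Odd r) := by
  rw [mem_filter, mem_Icc]
  refine ⟨⟨Nat.one_le_iff_ne_zero.2 (prod_ne_zero_iff.2 fun j _ => (hp j).ne_zero), ?_⟩, ?_⟩
  · calc ∏ i, p i ≤ ∏ _i : Fin K, P := prod_le_prod' fun i _ => hP i
      _ = P ^ K := by simp
  · have : ∀ s : Finset (Fin K), Odd (∏ i ∈ s, p i) := by
      intro s
      induction s using Finset.induction_on with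
      | empty => simp
      | insert a s ha ih =>
        rw [prod_insert ha]
        exact ((hp a).odd_of_ne_two (h2 a)).mul ih
    exact this univ

theorem st_FIB : ST_FIB := by
  intro K P T g _ hg hT
  classical
  set B := (Icc 1 (P ^ K)).filter (fun r => Odd r) with hB
  set F : (Fin (K + K) → ℕ) → ℕ × ℕ := fun t =>
    (∏ i : Fin K, t (Fin.castAdd K i), ∏ i : Fin K, t (Fin.natAdd K i)) with hF
  have hmap : ∀ t ∈ T, F t ∈ B ×ˢ B := by
    intro t ht
    obtain ⟨_, h⟩ := hT t ht
    rw [mem_product]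
    exact ⟨prod_mem (fun i => (h _).1) (fun i => (h _).2.1) fun i => (h _).2.2,
      prod_mem (fun i => (h _).1) (fun i => (h _).2.1) fun i => (h _).2.2⟩
  have h1 : ∑ t ∈ T, g (F t).1 (F t).2 =
      ∑ x ∈ B ×ˢ B, ∑ t ∈ T with F t = x, g (F t).1 (F t).2 :=
    (sum_fiberwise_of_maps_to hmap _).symm
  have h2 : ∀ x ∈ B ×ˢ B, ∑ t ∈ T with F t = x, g (F t).1 (F t).2 ≤
      (K : ℤ) ^ (2 * K) * g x.1 x.2 := by
    intro x _
    have h3 : ∑ t ∈ T with F t = x, g (F t).1 (F t).2 = ∑ t ∈ T with F t = x, g x.1 x.2 :=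
      sum_congr rfl fun t ht => by rw [(mem_filter.1 ht).2]
    rw [h3, sum_const, nsmul_eq_mul]
    refine mul_le_mul_of_nonneg_right ?_ (hg _ _)
    rcases (T.filter (fun t => F t = x)).eq_empty_or_nonempty with he | ⟨t0, ht0⟩
    · rw [he]
      simp only [card_empty, Nat.cast_zero]
      positivity
    · have hc1 : x.1.primeFactors.card ≤ K := by
        obtain ⟨ht, hx⟩ := mem_filter.1 ht0
        rw [← hx]
        exact pf_card fun i => ((hT t0 ht).2 _).1
      have hc2 : x.2.primeFactors.card ≤ K := by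
        obtain ⟨ht, hx⟩ := mem_filter.1 ht0
        rw [← hx]
        exact pf_card fun i => ((hT t0 ht).2 _).1
      have hsub : T.filter (fun t => F t = x) ⊆ Fintype.piFinset
          (fun j : Fin (K + K) => Fin.addCases (motive := fun _ => Finset ℕ)
            (fun _ => x.1.primeFactors) (fun _ => x.2.primeFactors) j) := by
        intro t ht
        obtain ⟨ht', hx⟩ := mem_filter.1 ht
        rw [Fintype.mem_piFinset]
        intro j
        refine Fin.addCases (fun i => ?_) (fun i => ?_) j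
        · rw [Fin.addCases_left, ← hx]
          exact pf_mem (p := fun i => t (Fin.castAdd K i)) (fun i => ((hT t ht').2 _).1) i
        · rw [Fin.addCases_right, ← hx]
          exact pf_mem (p := fun i => t (Fin.natAdd K i)) (fun i => ((hT t ht').2 _).1) i
      have hcard := card_le_card hsub
      rw [Fintype.card_piFinset, Fin.prod_univ_add] at hcard
      simp only [Fin.addCases_left, Fin.addCases_right, prod_const, card_univ,
        Fintype.card_fin] at hcard
      have h5 : x.1.primeFactors.card ^ K * x.2.primeFactors.card ^ K ≤ K ^ (2 * K) := by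
        rw [two_mul, pow_add]
        exact Nat.mul_le_mul (Nat.pow_le_pow_left hc1 K) (Nat.pow_le_pow_left hc2 K)
      exact_mod_cast hcard.trans h5
  calc ∑ t ∈ T, g (∏ i : Fin K, t (Fin.castAdd K i)) (∏ i : Fin K, t (Fin.natAdd K i))
      = ∑ t ∈ T, g (F t).1 (F t).2 := rfl
    _ = ∑ x ∈ B ×ˢ B, ∑ t ∈ T with F t = x, g (F t).1 (F t).2 := h1
    _ ≤ ∑ x ∈ B ×ˢ B, (K : ℤ) ^ (2 * K) * g x.1 x.2 := sum_le_sum h2
    _ = (K : ℤ) ^ (2 * K) * ∑ r ∈ B, ∑ r' ∈ B, g r r' := by
        rw [← mul_sum, sum_product]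

end Pool.Agent.Helper95.RD
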